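import Pool.Agent.W514.SS.Group

/-!
# Semisimplicity at all primes from one Frobenius polynomial
-/

set_option autoImplicit false

namespace Pool.Agent.Results.MP_b4801b_ag.AllPrimes

open Polynomial Module Pool.Agent.W514.SS

/-- Let `P` be a separable polynomial with rational coefficients all of whose complex roots satisfy
`z * conj z = N`, `N ≠ 0`, and `F` an algebraic extension of `ℚ` such that there is no exotic
relation between the roots of `P` (for instance because there are enough sign changes).

Let `ρ` be a representation of a group `G` on a finite dimensional vector space `V` over a field `K`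
of characteristic zero (`K = ℚ_ℓ`, any `ℓ`), respecting a nondegenerate reflexive bilinear form `B`
up to scalars, `φ ∈ G` an element with characteristic polynomial `P` and multiplier `N`. Suppose
that for every stable subspace `U` a power of the determinant of `φ` on `U` lies in the image of `F`
in an algebraic closure of `K`. Then every stable subspace `W` is nondegenerate, and its orthogonal
space is a stable complement; in particular the representation is semisimple. -/
theorem result {P : ℚ[X]} {N : ℚ} (hN : N ≠ 0) (hP : P.Separable)
    (hw : ∀ z : ℂ, aeval z P = 0 → z * (starRingEnd ℂ) z = N)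
    {F : Type*} [Field F] [CharZero F] [Algebra.IsAlgebraic ℚ F]
    (hNE : NoExotic P F ∨ SignChanges P F)
    {K V G : Type*} [Field K] [CharZero K] [AddCommGroup V] [Module K V] [FiniteDimensional K V]
    [Group G] {B : LinearMap.BilinForm K V} (hB : B.Nondegenerate) (hr : B.IsRefl)
    (ρ : Representation K G V) (χ : G → K)
    (hχ : ∀ g x y, B (ρ g x) (ρ g y) = χ g * B x y) (φ : G)
    (hφ : (ρ φ).charpoly = P.map (algebraMap ℚ K)) (hφN : χ φ = algebraMap ℚ K N)
    (hdet : ∀ (U : Submodule K V) (hU : ∀ g, ∀ x ∈ U, ρ g x ∈ U),
      PowerIn F (LinearMap.det (LinearMap.restrict (ρ φ) (hU φ) : End K U)))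
    (W : Submodule K V) (hW : ∀ g, ∀ x ∈ W, ρ g x ∈ W) :
    IsCompl W (B.orthogonal W) ∧ ∀ g, ∀ x ∈ B.orthogonal W, ρ g x ∈ B.orthogonal W := by
  have h : NoExotic P F := by
    rcases hNE with h | h
    · exact h
    · refine noExotic_of_signChanges (fun h0 => hN ?_) h
      have := hw 0 h0
      rw [zero_mul] at this
      exact_mod_cast this.symm
  exact group_main hN hP hw h hB hr ρ χ hχ φ hφ hφN hdet W hW

end Pool.Agent.Results.MP_b4801b_ag.AllPrimes
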